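import Pool.Agent.Helper38.FS.Goals
import Pool.Agent.Helper33.FS.FixW

/-!
# Project FS (MP_75608d_al), middle levels: the goal `S_FX`
-/

set_option autoImplicit false

namespace Pool.Agent.Helper22.FS

open Finset Equiv Filter
open Pool.Agent.Helper38.FS
open Pool.Agent.Helper60.FS (FIX)
open Pool.Agent.Helper3.AK (Alt)

theorem push_red {K : ℕ} (l : Lt K) {v : List (Lt K)} (hv : FreeGroup.IsReduced v) :
    FreeGroup.IsReduced (push l v) := by
  cases v with
  | nil => exact FreeGroup.IsReduced.singleton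
  | cons a v =>
    change FreeGroup.IsReduced (if a = inv l then v else l :: a :: v)
    split_ifs with h
    · exact List.IsChain.tail hv
    · refine FreeGroup.isReduced_cons_cons.2 ⟨fun h1 => ?_, hv⟩
      by_contra h2
      apply h
      unfold inv
      obtain ⟨a1, a2⟩ := a
      obtain ⟨l1, l2⟩ := l
      simp only at h1 h2 ⊢
      subst h1
      cases a2 <;> cases l2 <;> simp_all

theorem push_len {K : ℕ} (l : Lt K) (v : List (Lt K)) : (push l v).length ≤ v.length + 1 := by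
  cases v with
  | nil => simp [push]
  | cons a v =>
    change (if a = inv l then v else l :: a :: v).length ≤ (a :: v).length + 1
    split_ifs
    · simp only [List.length_cons]; omega
    · simp

theorem rdw_red {K : ℕ} : ∀ (J : ℕ) (w : Wd K J), FreeGroup.IsReduced (rdw J w)
  | 0, _ => FreeGroup.IsReduced.nil
  | J + 1, w => by
    unfold rdw
    split_ifs
    · exact push_red _ (rdw_red J _)
    · exact rdw_red J _

theorem rdw_len {K : ℕ} : ∀ (J : ℕ) (w : Wd K J), (rdw J w).length ≤ J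
  | 0, _ => le_refl 0
  | J + 1, w => by
    have h := rdw_len J (Fin.tail w)
    unfold rdw
    split_ifs
    · exact (push_len _ _).trans (Nat.succ_le_succ h)
    · exact h.trans (Nat.le_succ J)

theorem card_perm_alt (n K : ℕ) (hn : 2 ≤ n) :
    (Fintype.card (Fin K → Perm (Fin n)) : ℝ) = 2 ^ K * Fintype.card (Fin K → Alt n) := by
  classical
  have : Nontrivial (Fin n) := Fin.nontrivial_iff_two_le.2 hn
  have h := two_mul_card_alternatingGroup (α := Fin n)
  have h2 : (Fintype.card (Perm (Fin n)) : ℝ) = 2 * Fintype.card (Alt n) := by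
    rw [← h]; push_cast; rfl
  rw [Fintype.card_fun, Fintype.card_fun, Fintype.card_fin]
  push_cast
  rw [h2, mul_pow]

open Classical in
theorem fx : S_FX := by
  intro K hK
  have h1 := Pool.Agent.Helper33.FS.fix_whp K hK 202 0.6 1 (by norm_num)
  have h2 : ∀ᶠ n : ℕ in atTop, (2 : ℝ) ^ K ≤ (n : ℝ) ^ (0.9 : ℝ) := by
    have h3 : Tendsto (fun n : ℕ => (n : ℝ) ^ (0.9 : ℝ)) atTop atTop :=
      (tendsto_rpow_atTop (by norm_num)).comp tendsto_natCast_atTop_atTop
    exact h3.eventually_ge_atTop _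
  have h4 : ∀ᶠ n : ℕ in atTop, (1 : ℝ) ≤ Real.log n :=
    (Real.tendsto_log_atTop.comp tendsto_natCast_atTop_atTop).eventually_ge_atTop 1
  obtain ⟨n₀, hn₀⟩ := eventually_atTop.1 ((h1.and h2).and (h4.and (eventually_ge_atTop 2)))
  refine ⟨n₀, fun n hn => ?_⟩
  obtain ⟨⟨hfix, hpow⟩, hlog, hn2⟩ := hn₀ n hn
  have hnpos : (0 : ℝ) < n := by
    have : 0 < n := by omega
    exact_mod_cast this
  have hJ : ((jj n : ℕ) : ℝ) ≤ 202 * Real.log n := by
    unfold jj
    push_cast
    have h5 := Nat.ceil_lt_add_one (a := 100 * Real.log n) (by linarith)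
    linarith
  have hF : (n : ℝ) ^ (0.6 : ℝ) ≤ (f0 n : ℝ) + 1 := by
    unfold f0
    have := Nat.le_ceil ((n : ℝ) ^ (0.6 : ℝ))
    linarith
  have h6 := hfix (jj n) (f0 n) hJ hF
  set A : Finset (Fin K → Alt n) := univ.filter fun z : Fin K → Alt n =>
      (n : ℝ) ^ (-0.4 : ℝ) < prW K (jj n) (fun w => ¬ FIX (up z) (rdw (jj n) w) (f0 n)) with hA
  set B : Finset (Fin K → Perm (Fin n)) := univ.filter fun z : Fin K → Perm (Fin n) =>
      ∃ w : List (Fin K × Bool), FreeGroup.IsReduced w ∧ w.length ≤ jj n ∧ ¬ FIX z w (f0 n) with hB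
  have hle : A.card ≤ B.card := by
    refine Finset.card_le_card_of_injOn (fun z => up z) ?_ ?_
    · intro z hz
      rw [Finset.mem_coe] at hz ⊢
      rw [hA, mem_filter] at hz
      rw [hB, mem_filter]
      refine ⟨mem_univ _, ?_⟩
      by_contra hcon
      push Not at hcon
      have h7 : prW K (jj n) (fun w => ¬ FIX (up z) (rdw (jj n) w) (f0 n)) = 0 := by
        unfold prW
        rw [div_eq_zero_iff]
        left
        rw [Nat.cast_eq_zero, Finset.card_eq_zero, Finset.eq_empty_iff_forall_notMem]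
        intro w hw
        have hw2 := ((@Finset.mem_filter _ _ (fun _ => Classical.propDecidable _) _ _).1 hw).2
        exact hw2 (hcon _ (rdw_red _ w) (rdw_len _ w))
      rw [h7] at hz
      have h8 : (0 : ℝ) < (n : ℝ) ^ (-0.4 : ℝ) := Real.rpow_pos_of_pos hnpos _
      linarith [hz.2]
    · intro z _ z' _ h
      funext i
      have := congrFun h i
      exact Subtype.ext this
  have h9 : (B.card : ℝ) ≤ (n : ℝ) ^ (-(1 : ℝ)) * (2 ^ K * Fintype.card (Fin K → Alt n)) := by
    rw [← card_perm_alt n K hn2]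
    exact h6
  have h10 : (n : ℝ) ^ (-(1 : ℝ)) * 2 ^ K ≤ (n : ℝ) ^ (-0.1 : ℝ) := by
    calc (n : ℝ) ^ (-(1 : ℝ)) * 2 ^ K ≤ (n : ℝ) ^ (-(1 : ℝ)) * (n : ℝ) ^ (0.9 : ℝ) := by
          exact mul_le_mul_of_nonneg_left hpow (Real.rpow_nonneg hnpos.le _)
      _ = (n : ℝ) ^ (-0.1 : ℝ) := by
          rw [← Real.rpow_add hnpos]
          norm_num
  calc (A.card : ℝ) ≤ B.card := by exact_mod_cast hle
    _ ≤ (n : ℝ) ^ (-(1 : ℝ)) * (2 ^ K * Fintype.card (Fin K → Alt n)) := h9
    _ = (n : ℝ) ^ (-(1 : ℝ)) * 2 ^ K * Fintype.card (Fin K → Alt n) := by ring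
    _ ≤ (n : ℝ) ^ (-0.1 : ℝ) * Fintype.card (Fin K → Alt n) :=
        mul_le_mul_of_nonneg_right h10 (Nat.cast_nonneg _)

end Pool.Agent.Helper22.FS
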